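import Mathlib

/-!
A counting lemma: if a set `S` of words of length `m` over the alphabet `X` is such that for every
position and every beginning of a word at most three quarters of the letters can be continued in
`S`, then `S` has at most `(3 / 4) ^ m * |X| ^ m` elements.
-/

set_option autoImplicit false

namespace Pool.Agent.NNDT

open Finset

variable {X : Type} [Fintype X] [DecidableEq X]

open Classical in
theorem dp : ∀ (m : ℕ) (S : Finset (Fin m → X)),
    (∀ (i : Fin m) (pre : Fin m → X),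
      4 * (univ.filter fun a => ∃ χ ∈ S, (∀ j < i, χ j = pre j) ∧ χ i = a).card ≤
        3 * Fintype.card X) →
    4 ^ m * S.card ≤ (3 * Fintype.card X) ^ m
  | 0, S, _ => by
    have h1 : S.card ≤ 1 := by
      refine (Finset.card_le_univ S).trans ?_
      simp
    simpa using h1
  | m + 1, S, hS => by
    set A : Finset X := univ.filter fun a => ∃ χ ∈ S, χ 0 = a with hA
    have hAc : 4 * A.card ≤ 3 * Fintype.card X := by
      rcases S.eq_empty_or_nonempty with h | ⟨χ₀, _⟩
      · have : A = ∅ := by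
          rw [hA, h]
          simp
        rw [this]
        simp
      · have h1 := hS 0 χ₀
        refine le_trans (Nat.mul_le_mul_left _ (Finset.card_le_card ?_)) h1
        intro a ha
        rw [hA, mem_filter] at ha
        obtain ⟨_, χ, hχ, h2⟩ := ha
        exact mem_filter.2 ⟨mem_univ _, χ, hχ, fun j hj => absurd hj (Fin.not_lt_zero j), h2⟩
    have hfib : ∀ a ∈ A, 4 ^ m * (S.filter fun χ => χ 0 = a).card ≤ (3 * Fintype.card X) ^ m := by
      intro a _
      have h1 : (S.filter fun χ => χ 0 = a).card =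
          ((S.filter fun χ => χ 0 = a).image fun χ : Fin (m + 1) → X => Fin.tail χ).card := by
        rw [Finset.card_image_of_injOn]
        intro χ hχ χ' hχ' h
        rw [mem_coe, mem_filter] at hχ hχ'
        rw [← Fin.cons_self_tail χ, ← Fin.cons_self_tail χ', hχ.2, hχ'.2]
        simp only at h
        rw [h]
      rw [h1]
      apply dp m
      intro i pre
      refine le_trans (Nat.mul_le_mul_left _ (Finset.card_le_card ?_))
        (hS i.succ (Fin.cons a pre))
      intro b hb
      rw [mem_filter] at hb ⊢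
      obtain ⟨_, χ', hχ', h2, h3⟩ := hb
      obtain ⟨χ, hχ, rfl⟩ := mem_image.1 hχ'
      rw [mem_filter] at hχ
      refine ⟨mem_univ _, χ, hχ.1, ?_, h3⟩
      intro j hj
      refine Fin.cases ?_ ?_ j (motive := fun j => j < i.succ → χ j = Fin.cons (α := fun _ => X) a pre j) hj
      · intro _
        rw [Fin.cons_zero]
        exact hχ.2
      · intro j' hj'
        rw [Fin.cons_succ]
        exact h2 j' (Fin.succ_lt_succ_iff.1 hj')
    have hcard : S.card = ∑ a ∈ A, (S.filter fun χ => χ 0 = a).card := by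
      apply Finset.card_eq_sum_card_fiberwise
      intro χ hχ
      exact mem_coe.2 (mem_filter.2 ⟨mem_univ _, χ, hχ, rfl⟩)
    calc 4 ^ (m + 1) * S.card = 4 * ∑ a ∈ A, 4 ^ m * (S.filter fun χ => χ 0 = a).card := by
          rw [hcard, ← Finset.mul_sum]
          ring
      _ ≤ 4 * ∑ _a ∈ A, (3 * Fintype.card X) ^ m :=
          Nat.mul_le_mul_left _ (Finset.sum_le_sum hfib)
      _ = (4 * A.card) * (3 * Fintype.card X) ^ m := by
          rw [Finset.sum_const, smul_eq_mul]
          ring
      _ ≤ (3 * Fintype.card X) * (3 * Fintype.card X) ^ m := Nat.mul_le_mul_right _ hAc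
      _ = _ := by ring

open Classical in
/-- **Direct product lemma.** -/
theorem exists_letter {m τ : ℕ} (hm : 3 * τ + 1 ≤ m) (S : Finset (Fin m → X))
    (hX : 0 < Fintype.card X) (hS : Fintype.card X ^ m ≤ 2 ^ τ * S.card) :
    ∃ (i : Fin m) (pre : Fin m → X), 3 * Fintype.card X <
      4 * (univ.filter fun a => ∃ χ ∈ S, (∀ j < i, χ j = pre j) ∧ χ i = a).card := by
  by_contra hcon
  push Not at hcon
  have h1 := dp m S hcon
  have h2 : 4 ^ m * Fintype.card X ^ m ≤ 2 ^ τ * (3 ^ m * Fintype.card X ^ m) := by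
    calc 4 ^ m * Fintype.card X ^ m ≤ 4 ^ m * (2 ^ τ * S.card) := Nat.mul_le_mul_left _ hS
      _ = 2 ^ τ * (4 ^ m * S.card) := by ring
      _ ≤ 2 ^ τ * (3 * Fintype.card X) ^ m := Nat.mul_le_mul_left _ h1
      _ = _ := by rw [mul_pow]
  have h3 : 4 ^ m ≤ 2 ^ τ * 3 ^ m := by
    have h4 : 0 < Fintype.card X ^ m := by positivity
    apply Nat.le_of_mul_le_mul_right _ h4
    rw [mul_assoc]
    exact h2
  have h5 : 2 ^ τ * 3 ^ m < 4 ^ m := by
    obtain ⟨d, rfl⟩ := Nat.exists_eq_add_of_le hm
    have e1 : 2 ^ τ * 3 ^ (3 * τ + 1 + d) = (54 ^ τ) * (3 * 3 ^ d) := by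
      rw [pow_add, pow_add, pow_mul]
      have : (54 : ℕ) ^ τ = 2 ^ τ * (3 ^ 3) ^ τ := by rw [← mul_pow]; norm_num
      rw [this]
      ring
    have e2 : 4 ^ (3 * τ + 1 + d) = (64 ^ τ) * (4 * 4 ^ d) := by
      rw [pow_add, pow_add, pow_mul]
      norm_num
      ring
    rw [e1, e2]
    have g1 : 54 ^ τ ≤ 64 ^ τ := Nat.pow_le_pow_left (by norm_num) _
    have g2 : 3 ^ d ≤ 4 ^ d := Nat.pow_le_pow_left (by norm_num) _
    have g3 : 0 < 54 ^ τ := by positivity
    have g4 : 0 < 3 ^ d := by positivity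
    calc 54 ^ τ * (3 * 3 ^ d) < 54 ^ τ * (4 * 3 ^ d) := by
          apply Nat.mul_lt_mul_of_pos_left _ g3
          omega
      _ ≤ 64 ^ τ * (4 * 4 ^ d) := Nat.mul_le_mul g1 (Nat.mul_le_mul_left _ g2)
  omega

end Pool.Agent.NNDT
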