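import Pool.Agent.NNDT.Tr
import Pool.Agent.NNDT.Dp

/-!
The core: from a nondeterministic circuit with few NOT gates and few witness bits for the
conjunction of many functions on disjoint sets of variables we get, for one of the functions, a
small monotone program which accepts only inputs accepted by the function and more than three
quarters of the test inputs.
-/

set_option autoImplicit false

namespace Pool.Agent.NNDT

open Finset Pool.Agent.NegLim

lemma Mon.monotone {V : Type} {L : List ((V → Bool) → Bool)} (h : Mon L) :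
    ∀ f, Avail L f → ∀ x x' : V → Bool, (∀ i, x i = true → x' i = true) →
      f x = true → f x' = true := by
  have hbase : ∀ f : (V → Bool) → Bool, ((∃ i, f = fun x => x i) ∨ ∃ b, f = fun _ => b) →
      ∀ x x' : V → Bool, (∀ i, x i = true → x' i = true) → f x = true → f x' = true := by
    rintro f (⟨i, rfl⟩ | ⟨b, rfl⟩) x x' hx h
    · exact hx i h
    · exact h
  induction h with
  | nil =>
    rintro f (h | h)
    · simp at h
    · exact hbase f h
  | @and L f g _ hf hg ih =>
    rintro f' (h | h)
    · rcases List.mem_cons.1 h with rfl | h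
      · intro x x' hx hxx
        rw [Bool.and_eq_true] at hxx ⊢
        exact ⟨ih f hf x x' hx hxx.1, ih g hg x x' hx hxx.2⟩
      · exact ih f' (Or.inl h)
    · exact hbase f' h
  | @or L f g _ hf hg ih =>
    rintro f' (h | h)
    · rcases List.mem_cons.1 h with rfl | h
      · intro x x' hx hxx
        rw [Bool.or_eq_true] at hxx ⊢
        rcases hxx with hxx | hxx
        · exact Or.inl (ih f hf x x' hx hxx)
        · exact Or.inr (ih g hg x x' hx hxx)
      · exact ih f' (Or.inl h)
    · exact hbase f' h

lemma MonSize.monotone {V : Type} {f : (V → Bool) → Bool} {T : ℕ} (h : MonSize f T)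
    (x x' : V → Bool) (hx : ∀ i, x i = true → x' i = true) (hf : f x = true) : f x' = true := by
  obtain ⟨L, hL, _, hav⟩ := h
  exact Mon.monotone hL f hav x x' hx hf

open Classical in
theorem core {E : Type} {s t m : ℕ} {X : Type} [Fintype X] (hX : 0 < Fintype.card X)
    (B : Fin m → Set E) (hB : ∀ i j e, e ∈ B i → e ∈ B j → i = j)
    (f : Fin m → (E → Bool) → Bool)
    (hloc : ∀ i x x', (∀ e ∈ B i, x e = x' e) → f i x = f i x')
    (htop : ∀ i, f i (fun _ => true) = true)
    (pos : Fin m → X → E → Bool) (hpos : ∀ i a, f i (pos i a) = true)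
    (C : NCirc E s t) (hN : C.NotsFree)
    (hC : ∀ x, (∀ e, (∀ i, e ∉ B i) → x e = true) → (C.Acc x ↔ ∀ i, f i x = true))
    (hm : 2 ^ (s + C.nots) * (3 * (s + t) + 1) ≤ m) :
    ∃ (i : Fin m) (h : (E → Bool) → Bool), MonSize h (C.gates.length + 1) ∧
      (∀ y, h y = true → f i y = true) ∧
      3 * Fintype.card X < 4 * (univ.filter fun a => h (pos i a) = true).card := by
  -- the groups
  set M := 2 ^ (s + C.nots) with hM
  set m' := 3 * (s + t) + 1 with hm'
  let idx : Fin M → Fin m' → Fin m := fun g i => Fin.castLE hm (finProdFinEquiv (g, i))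
  have hidx : ∀ g i g' i', idx g i = idx g' i' → g = g' ∧ i = i' := by
    intro g i g' i' h
    have h1 := finProdFinEquiv.injective (Fin.castLE_injective hm h)
    exact ⟨congrArg Prod.fst h1, congrArg Prod.snd h1⟩
  have hgrp : ∀ g i g' i' e, e ∈ B (idx g i) → e ∈ B (idx g' i') → g = g' ∧ i = i' := by
    intro g i g' i' e h1 h2
    exact hidx g i g' i' (hB _ _ e h1 h2)
  obtain ⟨A, hA, hAF⟩ := transfer_fam (fun g : Fin M => {e | ∃ i, e ∈ B (idx g i)})
    (fun g g' hgg => Set.disjoint_left.2 (by
      rintro e ⟨i, h1⟩ ⟨i', h2⟩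
      exact hgg (hgrp g i g' i' e h1 h2).1))
    (fun _ => true) (fun g x => decide (∀ i, f (idx g i) x = true))
    (by
      intro g x x' hx
      have h1 : ∀ i, f (idx g i) x = f (idx g i) x' :=
        fun i => hloc _ _ _ fun e he => hx e ⟨i, he⟩
      simp only [h1])
    (fun g => decide_eq_true fun i => htop _) C hN
    (by
      intro x hx
      rw [hC x (fun e he => hx e fun g => by
        rintro ⟨i, hi⟩
        exact he _ hi)]
      constructor
      · intro h g
        exact decide_eq_true fun i => h _
      · intro h j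
        by_cases hj : ∃ g i, idx g i = j
        · obtain ⟨g, i, rfl⟩ := hj
          exact of_decide_eq_true (h g) i
        · rw [← htop j]
          apply hloc
          intro e he
          apply hx
          intro g
          rintro ⟨i, hi⟩
          exact hj ⟨g, i, hB _ _ e hi he⟩)
  obtain ⟨g, hg⟩ : ∃ g, g ∉ A := by
    by_contra hall
    push Not at hall
    have h3 : (univ : Finset (Fin M)) ⊆ A := fun i _ => hall i
    have h4 := Finset.card_le_card h3
    rw [Finset.card_univ, Fintype.card_fin] at h4
    have h5 : 0 < 2 ^ s := by positivity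
    have h6 : 0 < 2 ^ C.nots := by positivity
    have h7 : 2 ^ s * (2 ^ C.nots - 1) < 2 ^ s * 2 ^ C.nots :=
      Nat.mul_lt_mul_of_pos_left (by omega) h5
    rw [← pow_add] at h7
    omega
  obtain ⟨F, hFs, hF⟩ := hAF g hg
  -- the inputs
  let x : (Fin m' → X) → E → Bool := fun χ e =>
    if h : ∃ i, e ∈ B (idx g i) then pos (idx g h.choose) (χ h.choose) e else true
  have hch : ∀ {e i} (h : ∃ i, e ∈ B (idx g i)), e ∈ B (idx g i) → h.choose = i := by
    intro e i h hi
    exact (hgrp g _ g i e h.choose_spec hi).2
  have hx1 : ∀ χ i e, e ∈ B (idx g i) → x χ e = pos (idx g i) (χ i) e := by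
    intro χ i e he
    have h : ∃ i, e ∈ B (idx g i) := ⟨i, he⟩
    simp only [x, dif_pos h, hch h he]
  have hxφ : ∀ χ, decide (∀ i, f (idx g i) (x χ) = true) = true := by
    intro χ
    apply decide_eq_true
    intro i
    rw [← hpos (idx g i) (χ i)]
    exact hloc _ _ _ fun e he => hx1 χ i e he
  -- pigeonhole
  let S : (Fin s → Bool) × (Fin t → Bool) → Finset (Fin m' → X) :=
    fun p => univ.filter fun χ => F p (x χ) = true
  obtain ⟨p, hp⟩ : ∃ p, Fintype.card X ^ m' ≤ 2 ^ (s + t) * (S p).card := by
    obtain ⟨p, _, hp⟩ := Finset.exists_max_image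
      (univ : Finset ((Fin s → Bool) × (Fin t → Bool))) (fun p => (S p).card) univ_nonempty
    refine ⟨p, ?_⟩
    have h1 : (univ : Finset (Fin m' → X)) ⊆ (univ : Finset _).biUnion S := by
      intro χ _
      obtain ⟨q, hq⟩ := (hF (x χ)).1 (hxφ χ)
      exact mem_biUnion.2 ⟨q, mem_univ _, mem_filter.2 ⟨mem_univ _, hq⟩⟩
    calc Fintype.card X ^ m' = (univ : Finset (Fin m' → X)).card := by
          rw [card_univ, Fintype.card_fun, Fintype.card_fin]
      _ ≤ _ := Finset.card_le_card h1
      _ ≤ ∑ q, (S q).card := Finset.card_biUnion_le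
      _ ≤ ∑ _q : (Fin s → Bool) × (Fin t → Bool), (S p).card :=
          Finset.sum_le_sum fun q hq => hp q hq
      _ = 2 ^ (s + t) * (S p).card := by
          rw [Finset.sum_const, smul_eq_mul, card_univ, Fintype.card_prod, Fintype.card_fun,
            Fintype.card_fun, Fintype.card_bool, Fintype.card_fin, Fintype.card_fin, pow_add]
  obtain ⟨i, pre, hi⟩ := exists_letter (le_refl m') (S p) hX hp
  -- the substitution
  let σ : (E → Bool) → E → Bool := fun y e =>
    if h : ∃ j, e ∈ B (idx g j) then
      (if h.choose < i then pos (idx g h.choose) (pre h.choose) e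
        else if h.choose = i then y e else true) else true
  have hσ : IsProj σ := by
    intro e
    by_cases h : ∃ j, e ∈ B (idx g j)
    · by_cases h1 : h.choose < i
      · right; right
        refine ⟨pos (idx g h.choose) (pre h.choose) e, ?_⟩
        funext y
        simp only [σ, dif_pos h, if_pos h1]
      · by_cases h2 : h.choose = i
        · right; left
          refine ⟨e, ?_⟩
          funext y
          simp only [σ, dif_pos h, if_neg h1, if_pos h2]
        · right; right
          refine ⟨true, ?_⟩
          funext y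
          simp only [σ, dif_pos h, if_neg h1, if_neg h2]
    · right; right
      refine ⟨true, ?_⟩
      funext y
      simp only [σ, dif_neg h]
  refine ⟨idx g i, fun y => F p (σ y), (hFs p).comp hσ, ?_, ?_⟩
  · intro y hy
    have h1 := of_decide_eq_true ((hF (σ y)).2 ⟨p, hy⟩) i
    rw [← h1]
    apply hloc
    intro e he
    have h : ∃ j, e ∈ B (idx g j) := ⟨i, he⟩
    simp only [σ, dif_pos h, hch h he, lt_irrefl, if_false, if_true]
  · refine lt_of_lt_of_le hi (Nat.mul_le_mul_left _ (Finset.card_le_card ?_))
    intro a ha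
    rw [mem_filter] at ha ⊢
    obtain ⟨_, χ, hχ, hpre, rfl⟩ := ha
    refine ⟨mem_univ _, ?_⟩
    refine MonSize.monotone (hFs p) (x χ) _ ?_ (mem_filter.1 hχ).2
    intro e he
    by_cases h : ∃ j, e ∈ B (idx g j)
    · have he' := hx1 χ h.choose e h.choose_spec
      rw [he] at he'
      by_cases h1 : h.choose < i
      · simp only [σ, dif_pos h, if_pos h1]
        rw [← hpre _ h1]
        exact he'.symm
      · by_cases h2 : h.choose = i
        · simp only [σ, dif_pos h, if_neg h1, if_pos h2]
          rw [h2] at he'
          exact he'.symm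
        · simp only [σ, dif_pos h, if_neg h1, if_neg h2]
    · simp only [σ, dif_neg h]

end Pool.Agent.NNDT
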