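import Pool.Agent.NNDT.Mb
import Pool.Agent.NEG72.WinU

/-!
# The monotone bound for one window, one-sided errors
-/

namespace Pool.Agent.NNDT

open Finset Pool.Agent.NegLim Pool.Agent.NEG72

section

variable {k Q b v : ℕ} {w : ℕ × ℕ} (hw : ∀ i < k, w.1 + i * w.2 < 2 * Q)
  (hv : k * (2 * Q) * b ≤ v)

include hw hv in
open Classical in
/-- **The monotone bound for one window**, one-sided errors. -/
theorem win_bound34 {l p T : ℕ} (hl : l * (l - 1) ≤ k - 1) (hl2 : 2 ≤ l)
    (hp : 2 ≤ p) {F : (Edge v → Bool) → Bool} (hT : MonSize F T)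
    (hFp : ∀ τ, F (tpos hw hv τ) = true)
    (hFn : 3 * Fintype.card (Fin k × Fin b → Fin (k - 1)) ≤
      4 * ((univ : Finset (Fin k × Fin b → Fin (k - 1))).filter
        fun χ => F (tneg hw hv χ) = false).card) :
    2 ^ p ≤ 8 * ((p * l) ^ l) ^ 2 * T ∨
      b ^ k ≤ T * (((p * l) ^ l) ^ 2 * b ^ (k - (l + 1))) := by
  have h := mon_bound34 (pos := tpos hw hv) (K := tgraph) (neg := tneg (c := k - 1) hw hv)
    (R := b ^ (k - (l + 1))) hl hl2 hp ?_ ?_ hT hFp (by convert hFn)
  · rwa [Fintype.card_fun, Fintype.card_fin, Fintype.card_fin] at h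
  · intro e
    by_cases he : ∃ p p' : Fin k × Fin b, p ≠ p' ∧ e.1.1 = vx w hw hv p ∧ e.1.2 = vx w hw hv p'
    · obtain ⟨p, p', hne, h1, h2⟩ := he
      refine ⟨{{p, p'}}, ?_, by simp, ?_, ?_⟩
      · intro X hX
        rw [mem_singleton] at hX
        rw [hX]
        exact Finset.card_le_two.trans hl2
      · intro τ hτ
        unfold tpos at hτ
        rw [decide_eq_true_eq] at hτ
        obtain ⟨i, j, h3, h4⟩ := hτ
        have e1 : p = (i, τ i) := vx_inj hw hv (h1.symm.trans h3)
        have e2 : p' = (j, τ j) := vx_inj hw hv (h2.symm.trans h4)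
        refine ⟨{p, p'}, by simp, ?_⟩
        intro a ha
        rw [mem_insert, mem_singleton] at ha
        rw [mem_tgraph]
        rcases ha with rfl | rfl
        · rw [e1]
        · rw [e2]
      · intro χ hχ
        obtain ⟨X, hX, hXχ⟩ := hχ
        rw [mem_singleton] at hX
        subst hX
        unfold tneg
        rw [decide_eq_true_eq]
        refine ⟨p, p', h1, h2, fun h3 => hne ?_⟩
        exact hXχ (by simp) (by simp) h3
    · refine ⟨∅, by simp, by simp, ?_, ?_⟩
      · intro τ hτ
        unfold tpos at hτ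
        rw [decide_eq_true_eq] at hτ
        obtain ⟨i, j, h3, h4⟩ := hτ
        exfalso
        apply he
        refine ⟨(i, τ i), (j, τ j), ?_, h3, h4⟩
        intro h5
        rw [h5, ← h4] at h3
        exact absurd e.2 (by rw [h3]; exact lt_irrefl _)
      · intro χ hχ
        obtain ⟨X, hX, _⟩ := hχ
        simp at hX
  · intro Y hY
    exact card_tgraph hY

end

end Pool.Agent.NNDT
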