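import Pool.Agent.NegLim.Basic

/-!
# With `N` more witness bits the NOT gates are superfluous

A nondeterministic circuit in which only constants and literals of the witness bits are free and
which accepts a monotone set of inputs is simulated without NOT gates: guess `y ≤ x` and use the
literals of `y`.
-/

set_option autoImplicit false

namespace Pool.Agent.NNDT

open Pool.Agent.NegLim

variable {E : Type} {s t n : ℕ}

/-- The wire is an input bit, a gate, a constant, a witness bit or a negated witness bit. -/
def WLit : Wire E s t → Prop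
  | Wire.inp _ => True
  | Wire.gate _ => True
  | Wire.wit φ => (∃ b, ∀ u w, φ u w = b) ∨ (∃ i, ∀ u w, φ u w = u i) ∨
      (∃ i, ∀ u w, φ u w = !(u i)) ∨ (∃ i, ∀ u w, φ u w = w i) ∨ ∃ i, ∀ u w, φ u w = !(w i)

/-- All wires of the gate are of this form. -/
def GLit : Gate E s t → Prop
  | Gate.and a b => WLit a ∧ WLit b
  | Gate.or a b => WLit a ∧ WLit b
  | Gate.not a => WLit a

/-- All wires of the circuit are of this form. -/
def Lit (C : NCirc E s t) : Prop := (∀ g ∈ C.gates, GLit g) ∧ WLit C.out

/-! ### the two rails -/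

section

variable (ε : E → Fin n)

/-- the value of a wire on the guessed input; `j` is the number of the gate which reads it -/
def pw (j : ℕ) : Wire E 0 t → Wire E 0 (t + n)
  | Wire.inp e => Wire.wit fun _ w => w (Fin.natAdd t (ε e))
  | Wire.wit φ => Wire.wit fun u w => φ u fun i => w (Fin.castAdd n i)
  | Wire.gate m => if m < j then Wire.gate (2 * m) else Wire.wit fun _ _ => false

/-- the negated value of a wire on the guessed input -/
def nw (j : ℕ) : Wire E 0 t → Wire E 0 (t + n)
  | Wire.inp e => Wire.wit fun _ w => !(w (Fin.natAdd t (ε e)))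
  | Wire.wit φ => Wire.wit fun u w => !(φ u fun i => w (Fin.castAdd n i))
  | Wire.gate m => if m < j then Wire.gate (2 * m + 1) else Wire.wit fun _ _ => true

/-- the gate for the value -/
def pg (j : ℕ) : Gate E 0 t → Gate E 0 (t + n)
  | Gate.and a b => Gate.and (pw ε j a) (pw ε j b)
  | Gate.or a b => Gate.or (pw ε j a) (pw ε j b)
  | Gate.not a => Gate.and (nw ε j a) (nw ε j a)

/-- the gate for the negated value -/
def ng (j : ℕ) : Gate E 0 t → Gate E 0 (t + n)
  | Gate.and a b => Gate.or (nw ε j a) (nw ε j b)
  | Gate.or a b => Gate.and (nw ε j a) (nw ε j b)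
  | Gate.not a => Gate.and (pw ε j a) (pw ε j a)

/-- the two rails of all gates -/
def rails (C : List (Gate E 0 t)) : List (Gate E 0 (t + n)) :=
  C.foldl (fun L g => L ++ [pg ε (L.length / 2) g, ng ε (L.length / 2) g]) []

lemma rails_length (C : List (Gate E 0 t)) : (rails ε C).length = 2 * C.length := by
  induction C using List.reverseRecOn with
  | nil => rfl
  | append_singleton C g ih =>
    unfold rails at ih ⊢
    rw [List.foldl_append]
    simp only [List.foldl_cons, List.foldl_nil, List.length_append, List.length_cons,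
      List.length_nil]
    omega

lemma rails_concat (C : List (Gate E 0 t)) (g : Gate E 0 t) :
    rails ε (C ++ [g]) = rails ε C ++ [pg ε C.length g, ng ε C.length g] := by
  have h : (rails ε C).length / 2 = C.length := by
    rw [rails_length]
    omega
  conv_rhs => rw [← h]
  unfold rails
  rw [List.foldl_append]
  rfl

lemma pw_gate (j m : ℕ) : pw ε j (Wire.gate m : Wire E 0 t) =
    if m < j then Wire.gate (2 * m) else Wire.wit fun _ _ => false := rfl

lemma nw_gate (j m : ℕ) : nw ε j (Wire.gate m : Wire E 0 t) =
    if m < j then Wire.gate (2 * m + 1) else Wire.wit fun _ _ => true := rfl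

lemma pw_lit {j : ℕ} {a : Wire E 0 t} (h : WLit a) : WLit (pw ε j a) := by
  cases a with
  | inp e => exact Or.inr (Or.inr (Or.inr (Or.inl ⟨_, fun _ _ => rfl⟩)))
  | gate m =>
    rw [pw_gate]
    split_ifs
    · trivial
    · exact Or.inl ⟨false, fun _ _ => rfl⟩
  | wit φ =>
    rcases h with ⟨b, hb⟩ | ⟨i, _⟩ | ⟨i, _⟩ | ⟨i, hi⟩ | ⟨i, hi⟩
    · exact Or.inl ⟨b, fun u w => hb _ _⟩
    · exact i.elim0
    · exact i.elim0
    · exact Or.inr (Or.inr (Or.inr (Or.inl ⟨Fin.castAdd n i, fun u w => hi _ _⟩)))
    · exact Or.inr (Or.inr (Or.inr (Or.inr ⟨Fin.castAdd n i, fun u w => hi _ _⟩)))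

lemma nw_lit {j : ℕ} {a : Wire E 0 t} (h : WLit a) : WLit (nw ε j a) := by
  cases a with
  | inp e => exact Or.inr (Or.inr (Or.inr (Or.inr ⟨_, fun _ _ => rfl⟩)))
  | gate m =>
    rw [nw_gate]
    split_ifs
    · trivial
    · exact Or.inl ⟨true, fun _ _ => rfl⟩
  | wit φ =>
    rcases h with ⟨b, hb⟩ | ⟨i, _⟩ | ⟨i, _⟩ | ⟨i, hi⟩ | ⟨i, hi⟩
    · exact Or.inl ⟨!b, fun u w => congrArg not (hb _ _)⟩
    · exact i.elim0
    · exact i.elim0
    · exact Or.inr (Or.inr (Or.inr (Or.inr ⟨Fin.castAdd n i, fun u w => congrArg not (hi _ _)⟩)))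
    · exact Or.inr (Or.inr (Or.inr (Or.inl ⟨Fin.castAdd n i, fun u w =>
        (congrArg not (hi _ _)).trans (Bool.not_not _)⟩)))

lemma rails_lit {C : List (Gate E 0 t)} (h : ∀ g ∈ C, GLit g) :
    ∀ g ∈ rails ε C, GLit g ∧ g.isNot = false := by
  induction C using List.reverseRecOn with
  | nil => simp [rails]
  | append_singleton C g ih =>
    intro g' hg'
    rw [rails_concat, List.mem_append] at hg'
    rcases hg' with hg' | hg'
    · exact ih (fun g hg => h g (List.mem_append_left _ hg)) g' hg'
    · have hg := h g (List.mem_append_right _ (List.mem_singleton.2 rfl))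
      simp only [List.mem_cons, List.not_mem_nil, or_false] at hg'
      rcases hg' with rfl | rfl
      · cases g with
        | and a b => exact ⟨⟨pw_lit ε hg.1, pw_lit ε hg.2⟩, rfl⟩
        | or a b => exact ⟨⟨pw_lit ε hg.1, pw_lit ε hg.2⟩, rfl⟩
        | not a => exact ⟨⟨nw_lit ε hg, nw_lit ε hg⟩, rfl⟩
      · cases g with
        | and a b => exact ⟨⟨nw_lit ε hg.1, nw_lit ε hg.2⟩, rfl⟩
        | or a b => exact ⟨⟨nw_lit ε hg.1, nw_lit ε hg.2⟩, rfl⟩
        | not a => exact ⟨⟨pw_lit ε hg, pw_lit ε hg⟩, rfl⟩

/-- the guessed input -/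
def gy (t : ℕ) (w : Fin (t + n) → Bool) : E → Bool := fun e => w (Fin.natAdd t (ε e))

/-- the old witness -/
def gw (w : Fin (t + n) → Bool) : Fin t → Bool := fun i => w (Fin.castAdd n i)

/-- the values on the two rails -/
structure Rail (l : List Bool) (L : List Bool) : Prop where
  len : L.length = 2 * l.length
  pos : ∀ m < l.length, L.getD (2 * m) false = l.getD m false
  neg : ∀ m < l.length, L.getD (2 * m + 1) false = !(l.getD m false)

lemma pw_val {l L : List Bool} (h : Rail l L) (a : Wire E 0 t) (x : E → Bool) (u : Fin 0 → Bool)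
    (w : Fin (t + n) → Bool) :
    (pw ε l.length a).val x u w L = a.val (gy ε t w) u (gw w) l := by
  cases a with
  | inp e => rfl
  | wit φ => rfl
  | gate m =>
    rw [pw_gate]
    split_ifs with hm
    · exact h.pos m hm
    · exact (List.getD_eq_default _ _ (not_lt.1 hm)).symm

lemma nw_val {l L : List Bool} (h : Rail l L) (a : Wire E 0 t) (x : E → Bool) (u : Fin 0 → Bool)
    (w : Fin (t + n) → Bool) :
    (nw ε l.length a).val x u w L = !(a.val (gy ε t w) u (gw w) l) := by
  cases a with
  | inp e => rfl
  | wit φ => rfl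
  | gate m =>
    rw [nw_gate]
    split_ifs with hm
    · exact h.neg m hm
    · show true = !(l.getD m false)
      rw [List.getD_eq_default _ _ (not_lt.1 hm)]
      rfl

lemma pg_val {l L : List Bool} (h : Rail l L) (g : Gate E 0 t) (x : E → Bool) (u : Fin 0 → Bool)
    (w : Fin (t + n) → Bool) :
    (pg ε l.length g).val x u w L = g.val (gy ε t w) u (gw w) l := by
  cases g with
  | and a b => simp only [pg, Gate.val, pw_val ε h]
  | or a b => simp only [pg, Gate.val, pw_val ε h]
  | not a => simp only [pg, Gate.val, nw_val ε h, Bool.and_self]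

lemma wire_val_concat {E' : Type} {s' t' : ℕ} (a : Wire E' s' t') (x : E' → Bool)
    (u : Fin s' → Bool) (w : Fin t' → Bool) (l : List Bool) (b : Bool)
    (ha : ∀ m, a = Wire.gate m → m < l.length) : a.val x u w (l ++ [b]) = a.val x u w l := by
  cases a with
  | inp e => rfl
  | wit φ => rfl
  | gate m =>
    show (l ++ [b]).getD m false = l.getD m false
    rw [getD_concat, if_neg (ha m rfl).ne]

lemma pw_lt {j : ℕ} (a : Wire E 0 t) (m : ℕ) (h : pw ε j a = Wire.gate m) : m < 2 * j := by
  cases a with
  | inp e => cases h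
  | wit φ => cases h
  | gate k =>
    rw [pw_gate] at h
    split_ifs at h with hk
    · cases h
      omega

lemma nw_lt {j : ℕ} (a : Wire E 0 t) (m : ℕ) (h : nw ε j a = Wire.gate m) : m < 2 * j := by
  cases a with
  | inp e => cases h
  | wit φ => cases h
  | gate k =>
    rw [nw_gate] at h
    split_ifs at h with hk
    · cases h
      omega

lemma ng_val {l L : List Bool} (h : Rail l L) (b : Bool) (g : Gate E 0 t) (x : E → Bool)
    (u : Fin 0 → Bool) (w : Fin (t + n) → Bool) :
    (ng ε l.length g).val x u w (L ++ [b]) = !(g.val (gy ε t w) u (gw w) l) := by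
  have hp : ∀ a : Wire E 0 t, (pw ε l.length a).val x u w (L ++ [b]) =
      a.val (gy ε t w) u (gw w) l := by
    intro a
    rw [wire_val_concat _ _ _ _ _ _ fun m hm => by
      rw [h.len]
      exact pw_lt ε a m hm]
    exact pw_val ε h a x u w
  have hn : ∀ a : Wire E 0 t, (nw ε l.length a).val x u w (L ++ [b]) =
      !(a.val (gy ε t w) u (gw w) l) := by
    intro a
    rw [wire_val_concat _ _ _ _ _ _ fun m hm => by
      rw [h.len]
      exact nw_lt ε a m hm]
    exact nw_val ε h a x u w
  cases g with
  | and a b => simp only [ng, Gate.val, hn, Bool.not_and]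
  | or a b => simp only [ng, Gate.val, hn, Bool.not_or]
  | not a => simp only [ng, Gate.val, hp, Bool.and_self, Bool.not_not]

lemma rail_vals (C : List (Gate E 0 t)) (x : E → Bool) (u : Fin 0 → Bool)
    (w : Fin (t + n) → Bool) :
    Rail (vals C (gy ε t w) u (gw w)) (vals (rails ε C) x u w) := by
  induction C using List.reverseRecOn with
  | nil => exact ⟨rfl, fun m hm => absurd hm (Nat.not_lt_zero m),
      fun m hm => absurd hm (Nat.not_lt_zero m)⟩
  | append_singleton C g ih =>
    set l := vals C (gy ε t w) u (gw w) with hl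
    set L := vals (rails ε C) x u w with hL
    have hlen : l.length = C.length := vals_length ..
    have e1 : vals (rails ε (C ++ [g])) x u w =
        L ++ [g.val (gy ε t w) u (gw w) l] ++ [!(g.val (gy ε t w) u (gw w) l)] := by
      rw [rails_concat, show rails ε C ++ [pg ε C.length g, ng ε C.length g] =
        (rails ε C ++ [pg ε C.length g]) ++ [ng ε C.length g] by simp, vals_concat, vals_concat,
        ← hL, ← hlen, pg_val ε ih, ng_val ε ih]
    rw [e1, vals_concat, ← hl]
    refine ⟨?_, ?_, ?_⟩
    · simp only [List.length_append, List.length_singleton, ih.len]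
      ring
    · intro m hm
      rw [List.length_append, List.length_singleton] at hm
      rw [getD_concat, getD_concat, getD_concat, List.length_append, List.length_singleton, ih.len]
      rcases Nat.lt_succ_iff_lt_or_eq.1 hm with h | h
      · rw [if_neg (by omega), if_neg (by omega), if_neg (by omega), ih.pos m h]
      · subst h
        rw [if_neg (by omega), if_pos rfl, if_pos rfl]
    · intro m hm
      rw [List.length_append, List.length_singleton] at hm
      rw [getD_concat, getD_concat, getD_concat, List.length_append, List.length_singleton, ih.len]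
      rcases Nat.lt_succ_iff_lt_or_eq.1 hm with h | h
      · rw [if_neg (by omega), if_neg (by omega), if_neg (by omega), ih.neg m h]
      · subst h
        rw [if_pos rfl, if_pos rfl]

/-! ### the check `y ≤ x` -/

lemma checks (G : List (Gate E 0 (t + n))) (hG : ∀ g ∈ G, GLit g ∧ g.isNot = false)
    (o : Wire E 0 (t + n)) (ho : WLit o) (hoG : ∀ m, o = Wire.gate m → m < G.length)
    (l : List E) : ∃ (G' : List (Gate E 0 (t + n))) (o' : Wire E 0 (t + n)),
      (∀ g ∈ G', GLit g ∧ g.isNot = false) ∧ WLit o' ∧ (∀ m, o' = Wire.gate m → m < G'.length) ∧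
      G'.length = G.length + 2 * l.length ∧
      ∀ x u w, o'.val x u w (vals G' x u w) =
        (o.val x u w (vals G x u w) && l.all fun e => x e || !(gy ε t w e)) := by
  induction l generalizing G o with
  | nil => exact ⟨G, o, hG, ho, hoG, by simp, fun x u w => by simp⟩
  | cons e l ih =>
    set b : Wire E 0 (t + n) := Wire.wit fun _ w => !(w (Fin.natAdd t (ε e))) with hb
    set G1 := G ++ [Gate.or (Wire.inp e) b] with hG1
    set G2 := G1 ++ [Gate.and o (Wire.gate G.length)] with hG2
    have hl1 : G1.length = G.length + 1 := by simp [hG1]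
    have hl2 : G2.length = G.length + 2 := by simp [hG2, hl1]
    obtain ⟨G', o', h1, h2, h3, h4, h5⟩ := ih G2 (by
      intro g hg
      rw [hG2, hG1, List.mem_append, List.mem_append, List.mem_singleton, List.mem_singleton] at hg
      rcases hg with (hg | rfl) | rfl
      · exact hG g hg
      · exact ⟨⟨trivial, Or.inr (Or.inr (Or.inr (Or.inr ⟨_, fun _ _ => rfl⟩)))⟩, rfl⟩
      · exact ⟨⟨ho, trivial⟩, rfl⟩) (Wire.gate G1.length) trivial (by
        intro m hm
        cases hm
        omega)
    refine ⟨G', o', h1, h2, h3, by rw [h4, hl2, List.length_cons]; ring, fun x u w => ?_⟩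
    rw [h5, List.all_cons, ← Bool.and_assoc]
    congr 1
    have e1 : vals G1 x u w = vals G x u w ++ [x e || !(gy ε t w e)] := by
      rw [hG1, vals_concat]
      rfl
    have e2 : vals G2 x u w = vals G1 x u w ++
        [o.val x u w (vals G x u w) && (x e || !(gy ε t w e))] := by
      rw [hG2, vals_concat]
      congr 2
      simp only [Gate.val]
      congr 1
      · rw [e1]
        apply wire_val_concat
        intro m hm
        rw [vals_length]
        exact hoG m hm
      · show (vals G1 x u w).getD G.length false = _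
        rw [e1, getD_concat, vals_length, if_pos rfl]
    show (vals G2 x u w).getD G1.length false = _
    rw [e2, getD_concat, vals_length, if_pos rfl]

end

/-- **With `N` more witness bits the NOT gates are superfluous.** -/
theorem simulate {E : Type} [Fintype E] {t : ℕ} (D : NCirc E 0 t) (hD : Lit D)
    (hmono : ∀ x x' : E → Bool, (∀ e, x e = true → x' e = true) → D.Acc x → D.Acc x') :
    ∃ C : NCirc E 0 (t + Fintype.card E), Lit C ∧ C.nots = 0 ∧
      C.gates.length = 2 * D.gates.length + 2 * Fintype.card E ∧ ∀ x, C.Acc x ↔ D.Acc x := by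
  let ε := Fintype.equivFin E
  obtain ⟨G, o, h1, h2, _, h4, h5⟩ := checks (t := t) ε (rails ε D.gates)
    (rails_lit ε hD.1) (pw ε D.gates.length D.out) (pw_lit ε hD.2) (by
      intro m hm
      rw [rails_length]
      exact pw_lt ε _ m hm) (Finset.univ : Finset E).toList
  refine ⟨⟨G, o⟩, ⟨fun g hg => (h1 g hg).1, h2⟩, ?_, ?_, ?_⟩
  · show G.countP Gate.isNot = 0
    rw [List.countP_eq_zero]
    intro g hg
    rw [(h1 g hg).2]
    decide
  · show G.length = _
    rw [h4, rails_length, Finset.length_toList, Finset.card_univ]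
  · intro x
    have key : ∀ u w, o.val x u w (vals G x u w) = true ↔
        (D.out.val (gy ε t w) u (gw w) (vals D.gates (gy ε t w) u (gw w)) = true ∧
          ∀ e, gy ε t w e = true → x e = true) := by
      intro u w
      rw [h5, Bool.and_eq_true, List.all_eq_true]
      have hr := rail_vals ε D.gates x u w
      have hlen : (vals D.gates (gy ε t w) u (gw w)).length = D.gates.length := vals_length ..
      have e1 := pw_val ε hr D.out x u w
      rw [hlen] at e1
      rw [e1]
      constructor
      · rintro ⟨h6, h7⟩
        refine ⟨h6, fun e he => ?_⟩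
        have h8 := h7 e (Finset.mem_toList.2 (Finset.mem_univ e))
        rw [he] at h8
        simpa using h8
      · rintro ⟨h6, h7⟩
        refine ⟨h6, fun e _ => ?_⟩
        cases hy : gy ε t w e with
        | false => simp
        | true => simp [h7 e hy]
    constructor
    · rintro ⟨u, w, h⟩
      obtain ⟨h6, h7⟩ := (key u w).1 h
      exact hmono _ _ h7 ⟨u, gw w, h6⟩
    · rintro ⟨u, w, h⟩
      have e1 : gy ε t (Fin.append w fun i => x (ε.symm i)) = x := by
        funext e
        simp [gy]
      have e2 : gw (Fin.append w fun i => x (ε.symm i)) = w := by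
        funext i
        simp [gw]
      refine ⟨u, Fin.append w fun i => x (ε.symm i), (key u _).2 ⟨?_, fun e he => ?_⟩⟩
      · rw [e1, e2]
        exact h
      · rwa [e1] at he

end Pool.Agent.NNDT
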