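import Pool.Agent.NNDT.Win

/-!
# The explicit form of the lower bound
-/

set_option autoImplicit false

namespace Pool.Agent.NNDT

open Pool.Agent.NegLim Pool.Agent.NEG72

lemma aux_log {s t : ℕ} {a : ℝ} (ha : 0 ≤ a) (hs : (s : ℝ) ≤ a ^ 2) :
    Real.logb 2 ((3 * (s + t) + 1 : ℕ) : ℝ) ≤ Real.logb 2 ((t : ℝ) + 1) + (200 + 0.19 * a) := by
  have ht : (0 : ℝ) < (t : ℝ) + 1 := by positivity
  have hs0 : (0 : ℝ) ≤ s := by positivity
  have h1 : ((3 * (s + t) + 1 : ℕ) : ℝ) ≤ ((t : ℝ) + 1) * (3 * (a ^ 2 + 1)) := by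
    push_cast
    have h2 : (0 : ℝ) ≤ (t : ℝ) := by positivity
    nlinarith [mul_nonneg h2 hs0, mul_nonneg h2 (sub_nonneg.2 hs)]
  have h3 : 3 * (a ^ 2 + 1) ≤ (2 : ℝ) ^ (200 + 0.19 * a) := by
    have h4 : 1 + 0.065 * a ≤ (2 : ℝ) ^ (0.095 * a) := by
      rw [Real.rpow_def_of_pos (by norm_num)]
      have h5 := Real.add_one_le_exp (Real.log 2 * (0.095 * a))
      have h6 := Real.log_two_gt_d9
      nlinarith
    have h7 : (2 : ℝ) ^ (200 + 0.19 * a) = (2 : ℝ) ^ (200 : ℕ) * ((2 : ℝ) ^ (0.095 * a)) ^ 2 := by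
      rw [Real.rpow_add (by norm_num), ← Real.rpow_natCast, ← Real.rpow_natCast,
        ← Real.rpow_mul (by norm_num)]
      congr 2
      push_cast
      ring
    rw [h7]
    have h8 : (1 + 0.065 * a) ^ 2 ≤ ((2 : ℝ) ^ (0.095 * a)) ^ 2 :=
      pow_le_pow_left₀ (by positivity) h4 2
    have h9 : (3000 : ℝ) ≤ (2 : ℝ) ^ (200 : ℕ) := by norm_num
    have h10 : 0 ≤ a ^ 2 := sq_nonneg a
    calc 3 * (a ^ 2 + 1) ≤ 3000 * (1 + 0.065 * a) ^ 2 := by nlinarith
      _ ≤ (2 : ℝ) ^ (200 : ℕ) * ((2 : ℝ) ^ (0.095 * a)) ^ 2 :=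
          mul_le_mul h9 h8 (by positivity) (by positivity)
  calc Real.logb 2 ((3 * (s + t) + 1 : ℕ) : ℝ)
      ≤ Real.logb 2 (((t : ℝ) + 1) * (2 : ℝ) ^ (200 + 0.19 * a)) := by
        apply Real.logb_le_logb_of_le (by norm_num)
        · exact_mod_cast Nat.succ_pos _
        · exact h1.trans (mul_le_mul_of_nonneg_left h3 ht.le)
    _ = _ := by
        rw [Real.logb_mul ht.ne' (by positivity), Real.logb_rpow (by norm_num) (by norm_num)]

theorem uniform (v n k N s t : ℕ) (C : NCirc (Edge v) s t) (hn : 2 ^ 200 ≤ n)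
    (hk : k = Nat.sqrt (Nat.sqrt n)) (hN : N = v * (v - 1) / 2) (hfree : C.NotsFree)
    (hacc : ∀ x, C.Acc x ↔ nis v k x = true)
    (hsr : ((s + C.nots : ℕ) : ℝ) + Real.logb 2 ((t : ℝ) + 1) ≤
      Real.logb 2 N - 5 * (√(Real.logb 2 N) + Real.logb 2 n)) :
    (2 : ℝ) ^ ((n : ℝ) ^ (1 / 8 : ℝ)) ≤ ((2 * (C.gates.length + 1) : ℕ) : ℝ) := by
  have hn0 : 0 < n := lt_of_lt_of_le (by positivity) hn
  have hnr : (1 : ℝ) ≤ n := by exact_mod_cast hn0
  have hn200 : (2 : ℝ) ^ 200 ≤ n := by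
    have : ((2 ^ 200 : ℕ) : ℝ) ≤ n := by exact_mod_cast hn
    refine le_trans (le_of_eq ?_) this
    norm_num
  have hln : 200 ≤ Real.logb 2 n := by
    rw [Real.le_logb_iff_rpow_le (by norm_num) (by linarith)]
    refine le_trans (le_of_eq ?_) hn200
    norm_num
  have hlt0 : 0 ≤ Real.logb 2 ((t : ℝ) + 1) := by
    apply Real.logb_nonneg (by norm_num)
    have : (0 : ℝ) ≤ (t : ℝ) := by positivity
    linarith
  have hlN : 5 * Real.logb 2 n ≤ Real.logb 2 N := by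
    have h1 : (0 : ℝ) ≤ ((s + C.nots : ℕ) : ℝ) := by positivity
    have h2 : 0 ≤ √(Real.logb 2 N) := Real.sqrt_nonneg _
    linarith
  have hN0 : (0 : ℝ) < N := by
    rcases Nat.eq_zero_or_pos N with h | h
    · rw [h] at hlN
      simp at hlN
      linarith
    · exact_mod_cast h
  have hNn : (n : ℝ) ^ 5 ≤ N := by
    have h1 : Real.logb 2 ((n : ℝ) ^ 5) ≤ Real.logb 2 N := by
      rw [Real.logb_pow]
      push_cast
      exact hlN
    exact (Real.logb_le_logb (by norm_num) (by positivity) hN0).1 h1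
  have hNv : N ≤ v * v := by
    rw [hN]
    exact (Nat.div_le_self _ _).trans (Nat.mul_le_mul_left _ (Nat.sub_le _ _))
  have hnv : n ^ 2 ≤ v := by
    have h1 : n ^ 5 ≤ N := by exact_mod_cast hNn
    have h2 : (n ^ 2) ^ 2 ≤ v ^ 2 := by
      calc (n ^ 2) ^ 2 = n ^ 4 := by ring
        _ ≤ n ^ 5 := Nat.pow_le_pow_right hn0 (by norm_num)
        _ ≤ N := h1
        _ ≤ v * v := hNv
        _ = v ^ 2 := (sq v).symm
    exact (Nat.pow_le_pow_iff_left (by norm_num)).1 h2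
  have hv4 : 4 ≤ v := by
    refine le_trans ?_ hnv
    have : 2 ≤ n := le_trans (by norm_num) hn
    calc 4 = 2 ^ 2 := rfl
      _ ≤ n ^ 2 := Nat.pow_le_pow_left this 2
  have hvN : v ≤ N := by
    rw [hN, Nat.le_div_iff_mul_le (by norm_num)]
    apply Nat.mul_le_mul_left
    omega
  have hk4 : k ^ 4 ≤ n := by
    have h1 : k * k ≤ Nat.sqrt n := by
      rw [hk]
      exact Nat.sqrt_le _
    have h2 : Nat.sqrt n * Nat.sqrt n ≤ n := Nat.sqrt_le _
    calc k ^ 4 = (k * k) * (k * k) := by ring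
      _ ≤ Nat.sqrt n * Nat.sqrt n := Nat.mul_le_mul h1 h1
      _ ≤ n := h2
  have hk5 : 5 ≤ k := by
    rw [hk, Nat.le_sqrt, Nat.le_sqrt]
    exact le_trans (by norm_num) hn
  have hklt : n < (k + 1) ^ 4 := by
    have h1 : Nat.sqrt n < (k + 1) * (k + 1) := by
      rw [hk]
      exact Nat.lt_succ_sqrt _
    have h2 : n < (Nat.sqrt n + 1) * (Nat.sqrt n + 1) := Nat.lt_succ_sqrt _
    calc n < (Nat.sqrt n + 1) * (Nat.sqrt n + 1) := h2
      _ ≤ ((k + 1) * (k + 1)) * ((k + 1) * (k + 1)) := Nat.mul_le_mul h1 h1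
      _ = (k + 1) ^ 4 := by ring
  have hk2n : 2 * k * n * k ≤ v := by
    refine le_trans ?_ hnv
    have h1 : 2 * (k * k) ≤ k ^ 4 := by
      have h2 : 2 ≤ k * k := by nlinarith
      calc 2 * (k * k) ≤ (k * k) * (k * k) := Nat.mul_le_mul_right _ h2
        _ = k ^ 4 := by ring
    calc 2 * k * n * k = (2 * (k * k)) * n := by ring
      _ ≤ k ^ 4 * n := Nat.mul_le_mul_right _ h1
      _ ≤ n * n := Nat.mul_le_mul_right _ hk4
      _ = n ^ 2 := (sq n).symm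
  obtain ⟨Q, D, hD, hw, hQb, hcard⟩ := params_explicit hn0 (by omega : 0 < k) hk2n
  set m : ℕ := Q * D.card with hmdef
  have hm : (v : ℝ) ^ 2 ≤ (n : ℝ) ^ 4 * Real.exp (4 * √(Real.log (v : ℝ))) * m := by
    refine hcard.trans ?_
    have h1 : 32 * ((k : ℝ) ^ 3 * (n : ℝ) ^ 2) ≤ (n : ℝ) ^ 4 := by
      have h2 : 32 * (k ^ 3 * n ^ 2) ≤ n ^ 4 := by
        have h3 : k ^ 3 ≤ n := (Nat.pow_le_pow_right (by omega) (by norm_num)).trans hk4
        have h4 : 32 ≤ n := le_trans (by norm_num) hn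
        calc 32 * (k ^ 3 * n ^ 2) ≤ n * (n * n ^ 2) :=
              Nat.mul_le_mul h4 (Nat.mul_le_mul_right _ h3)
          _ = n ^ 4 := by ring
      exact_mod_cast h2
    gcongr
  have hv0 : (0 : ℝ) < v := by exact_mod_cast (by omega : 0 < v)
  have hv1 : (1 : ℝ) ≤ v := by exact_mod_cast (by omega : 1 ≤ v)
  have hm0 : (0 : ℝ) < m := by
    rcases Nat.eq_zero_or_pos m with h | h
    · rw [h] at hm
      simp at hm
      have : (0 : ℝ) < (v : ℝ) ^ 2 := by positivity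
      nlinarith
    · exact_mod_cast h
  set a := √(Real.logb 2 N) with ha
  set c := √(Real.log (v : ℝ)) with hc
  have hl2 : (0.6931 : ℝ) ≤ Real.log 2 := by
    have := Real.log_two_gt_d9
    linarith
  have hl2' : 0 < Real.log 2 := by linarith
  have ha0 : 0 ≤ a := Real.sqrt_nonneg _
  have hc0 : 0 ≤ c := Real.sqrt_nonneg _
  have ha2 : a ^ 2 = Real.logb 2 N := Real.sq_sqrt (by linarith)
  have hc2 : c ^ 2 = Real.log v := Real.sq_sqrt (Real.log_nonneg hv1)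
  have hca : c ^ 2 ≤ Real.log 2 * a ^ 2 := by
    rw [ha2, hc2, Real.logb, mul_div_cancel₀ _ hl2'.ne']
    exact Real.log_le_log hv0 (by exact_mod_cast hvN)
  have h4c : 4 * c ≤ 4.81 * Real.log 2 * a := by
    have h1 : (4 * c) ^ 2 ≤ (4.81 * Real.log 2 * a) ^ 2 := by
      have h2 : 0 ≤ Real.log 2 * a ^ 2 := by positivity
      have h3 : 16 * (Real.log 2 * a ^ 2) ≤ (4.81 ^ 2 * Real.log 2) * (Real.log 2 * a ^ 2) := by
        apply mul_le_mul_of_nonneg_right _ h2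
        nlinarith
      calc (4 * c) ^ 2 = 16 * c ^ 2 := by ring
        _ ≤ 16 * (Real.log 2 * a ^ 2) := by linarith
        _ ≤ (4.81 ^ 2 * Real.log 2) * (Real.log 2 * a ^ 2) := h3
        _ = (4.81 * Real.log 2 * a) ^ 2 := by ring
    exact (pow_le_pow_iff_left₀ (by positivity) (by positivity) (by norm_num)).1 h1
  have hlm : Real.logb 2 N ≤ 4 * Real.logb 2 n + 4 * c / Real.log 2 + Real.logb 2 m := by
    have h1 : (N : ℝ) ≤ (n : ℝ) ^ 4 * Real.exp (4 * c) * m := by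
      refine le_trans ?_ hm
      have : (N : ℝ) ≤ ((v * v : ℕ) : ℝ) := by exact_mod_cast hNv
      refine this.trans (le_of_eq ?_)
      push_cast
      ring
    calc Real.logb 2 N ≤ Real.logb 2 ((n : ℝ) ^ 4 * Real.exp (4 * c) * m) :=
          Real.logb_le_logb_of_le (by norm_num) hN0 h1
      _ = _ := by
        rw [Real.logb_mul (by positivity) hm0.ne', Real.logb_mul (by positivity) (by positivity),
          Real.logb_pow]
        congr 2
        rw [Real.logb, Real.log_exp]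
  have h4c' : 4 * c / Real.log 2 ≤ 4.81 * a := by
    rw [div_le_iff₀ hl2']
    linarith
  have hsa : (s : ℝ) ≤ a ^ 2 := by
    rw [ha2]
    have h1 : (s : ℝ) ≤ ((s + C.nots : ℕ) : ℝ) := by exact_mod_cast Nat.le_add_right _ _
    have h2 : 0 ≤ Real.logb 2 (n : ℝ) := by linarith
    linarith
  have haux := aux_log (t := t) ha0 hsa
  have hfin : ((s + C.nots : ℕ) : ℝ) + Real.logb 2 ((3 * (s + t) + 1 : ℕ) : ℝ) ≤
      Real.logb 2 m := by linarith
  have hlt : 2 ^ (s + C.nots) * (3 * (s + t) + 1) ≤ m := by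
    have h3 : (2 : ℝ) ^ (((s + C.nots : ℕ) : ℝ) +
        Real.logb 2 ((3 * (s + t) + 1 : ℕ) : ℝ)) ≤ m := by
      rw [← Real.le_logb_iff_rpow_le (by norm_num) hm0]
      exact hfin
    have h5 : (0 : ℝ) < ((3 * (s + t) + 1 : ℕ) : ℝ) := by exact_mod_cast Nat.succ_pos _
    rw [Real.rpow_add (by norm_num), Real.rpow_natCast,
      Real.rpow_logb (by norm_num) (by norm_num) h5] at h3
    exact_mod_cast h3
  have h3 := numerics_win (T := 2 * (C.gates.length + 1)) hn hk5 hk4 fun l p hl hl2 hp =>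
    bound (by omega : 2 ≤ k) hn0 hD hw hQb C hfree hacc hlt l p hl hl2 hp
  refine le_trans ?_ h3
  have hkr : (5 : ℝ) ≤ k := by exact_mod_cast hk5
  have e1 : (n : ℝ) ^ (1 / 8 : ℝ) ≤ √((k : ℝ) + 1) := by
    apply Real.le_sqrt_of_sq_le
    have h4 : (((n : ℝ) ^ (1 / 8 : ℝ)) ^ 2) ^ 4 ≤ ((k : ℝ) + 1) ^ 4 := by
      refine le_trans (le_of_eq ?_) (by exact_mod_cast hklt.le : (n : ℝ) ≤ ((k : ℝ) + 1) ^ 4)
      rw [← pow_mul, ← Real.rpow_natCast, ← Real.rpow_mul (by positivity)]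
      norm_num
    exact (pow_le_pow_iff_left₀ (by positivity) (by positivity) (by norm_num)).1 h4
  have e3 : √((k : ℝ) + 1) ≤ 25 * √(k : ℝ) := by
    rw [Real.sqrt_le_left (by positivity), mul_pow, Real.sq_sqrt (by linarith)]
    linarith
  calc (2 : ℝ) ^ ((n : ℝ) ^ (1 / 8 : ℝ)) ≤ (2 : ℝ) ^ (200 * (√(k : ℝ) / 8)) := by
        apply Real.rpow_le_rpow_of_exponent_le (by norm_num)
        linarith
    _ = ((2 : ℝ) ^ (200 : ℝ)) ^ (√(k : ℝ) / 8) := by rw [← Real.rpow_mul (by norm_num)]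
    _ ≤ (n : ℝ) ^ (√(k : ℝ) / 8) := by
        apply Real.rpow_le_rpow (by positivity) _ (by positivity)
        have : ((2 ^ 200 : ℕ) : ℝ) ≤ n := by exact_mod_cast hn
        refine le_trans (le_of_eq ?_) this
        norm_num

end Pool.Agent.NNDT
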