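import Pool.Agent.NNDT.Win

/-!
# The exponential lower bound with `N ^ (1 - ε)` witness bits
-/

set_option autoImplicit false

namespace Pool.Agent.NNDT

open Pool.Agent.NegLim Pool.Agent.NEG72

theorem exponential (ε : ℝ) (hε : 0 < ε) (hε1 : ε ≤ 1) : ∃ v₀ : ℕ, ∀ v ≥ v₀, ∀ k N : ℕ,
    k = ⌊(v : ℝ) ^ (ε / 32)⌋₊ → N = v * (v - 1) / 2 →
      ∀ (s t : ℕ) (C : NCirc (Edge v) s t), C.NotsFree → (∀ x, C.Acc x ↔ nis v k x = true) →
        ((2 ^ (s + C.nots) * (t + 1) : ℕ) : ℝ) ≤ (N : ℝ) ^ (1 - ε) →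
        (2 : ℝ) ^ ((N : ℝ) ^ (ε / 200)) ≤ C.gates.length := by
  obtain ⟨v₁, hv₁⟩ := params ε hε hε1
  have h1 : Filter.Tendsto (fun v : ℕ => (v : ℝ) ^ (ε / 100)) Filter.atTop Filter.atTop :=
    (tendsto_rpow_atTop (by positivity)).comp tendsto_natCast_atTop_atTop
  have h2 : Filter.Tendsto (fun v : ℕ => (v : ℝ) ^ (ε / 64 - ε / 100)) Filter.atTop
      Filter.atTop :=
    (tendsto_rpow_atTop (by linarith)).comp tendsto_natCast_atTop_atTop
  have h3 : ∀ᶠ v : ℕ in Filter.atTop, ‖Real.log (v : ℝ)‖ ≤ 1 / 100 * ‖(v : ℝ) ^ ε‖ :=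
    tendsto_natCast_atTop_atTop.eventually
      ((isLittleO_log_rpow_atTop hε).bound (by norm_num))
  have h4 : Filter.Tendsto (fun v : ℕ => (v : ℝ) ^ ε) Filter.atTop Filter.atTop :=
    (tendsto_rpow_atTop hε).comp tendsto_natCast_atTop_atTop
  obtain ⟨v₂, hv₂⟩ := Filter.eventually_atTop.1 ((h1.eventually_ge_atTop 4).and
    ((h2.eventually_ge_atTop 4).and (h3.and ((h4.eventually_ge_atTop 100).and
      (Filter.eventually_ge_atTop 2)))))
  refine ⟨max v₁ v₂, fun v hv k N hk hN s t C hfree hacc hsr => ?_⟩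
  obtain ⟨Q, b, D, hk2, hb0, hD, hw, hQb, hcard, hT⟩ := hv₁ v ((le_max_left _ _).trans hv) k hk
  obtain ⟨g1, g2, g3, g4, g5⟩ := hv₂ v ((le_max_right _ _).trans hv)
  have hv1 : (1 : ℝ) ≤ v := by exact_mod_cast (by omega : 1 ≤ v)
  have hv0 : (0 : ℝ) < v := by linarith
  set y : ℝ := (v : ℝ) ^ (ε / 100) with hy
  have hy0 : 0 < y := by positivity
  have hNv : (N : ℝ) ≤ (v : ℝ) ^ (2 : ℝ) := by
    have h3 : N ≤ v * v := by
      rw [hN]
      exact (Nat.div_le_self _ _).trans (Nat.mul_le_mul_left _ (Nat.sub_le _ _))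
    calc (N : ℝ) ≤ ((v * v : ℕ) : ℝ) := by exact_mod_cast h3
      _ = (v : ℝ) ^ (2 : ℝ) := by
        rw [Real.rpow_two, sq]
        push_cast
        rfl
  have hN1 : 1 ≤ N := by
    rw [hN, Nat.le_div_iff_mul_le (by norm_num)]
    calc 1 * 2 = 2 * 1 := by ring
      _ ≤ v * (v - 1) := Nat.mul_le_mul g5 (by omega)
  have hN1r : (1 : ℝ) ≤ N := by exact_mod_cast hN1
  have hNy : (N : ℝ) ^ (ε / 200) ≤ y := by
    calc (N : ℝ) ^ (ε / 200) ≤ ((v : ℝ) ^ (2 : ℝ)) ^ (ε / 200) :=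
          Real.rpow_le_rpow (by linarith) hNv (by positivity)
      _ = y := by
          rw [← Real.rpow_mul hv0.le, hy]
          congr 1
          ring
  have h4y : 4 * y ≤ (v : ℝ) ^ (ε / 64) := by
    calc 4 * y ≤ (v : ℝ) ^ (ε / 64 - ε / 100) * y := by gcongr
      _ = (v : ℝ) ^ (ε / 64) := by
        rw [hy, ← Real.rpow_add hv0]
        congr 1
        ring
  -- the number of windows is large enough
  have hNe : (N : ℝ) ^ (1 - ε) ≤ (v : ℝ) ^ (2 - 2 * ε) := by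
    calc (N : ℝ) ^ (1 - ε) ≤ ((v : ℝ) ^ (2 : ℝ)) ^ (1 - ε) :=
          Real.rpow_le_rpow (by linarith) hNv (by linarith)
      _ = _ := by
          rw [← Real.rpow_mul hv0.le]
          congr 1
          ring
  have hs : (2 : ℝ) ^ s ≤ (v : ℝ) ^ (2 : ℝ) := by
    have e1 : (2 : ℝ) ^ s ≤ ((2 ^ (s + C.nots) * (t + 1) : ℕ) : ℝ) := by
      have : 2 ^ s ≤ 2 ^ (s + C.nots) * (t + 1) := by
        calc 2 ^ s ≤ 2 ^ (s + C.nots) := Nat.pow_le_pow_right (by norm_num) (Nat.le_add_right _ _)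
          _ ≤ 2 ^ (s + C.nots) * (t + 1) := Nat.le_mul_of_pos_right _ (Nat.succ_pos _)
      exact_mod_cast this
    have e2 : (v : ℝ) ^ (2 - 2 * ε) ≤ (v : ℝ) ^ (2 : ℝ) :=
      Real.rpow_le_rpow_of_exponent_le hv1 (by linarith)
    exact (e1.trans hsr).trans (hNe.trans e2)
  have hs3 : 3 * ((s : ℝ) + 1) ≤ (v : ℝ) ^ ε := by
    have e1 : (s : ℝ) * Real.log 2 ≤ 2 * Real.log v := by
      have := Real.log_le_log (by positivity) hs
      rwa [Real.log_pow, Real.log_rpow hv0] at this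
    have e2 : (1 : ℝ) / 2 ≤ Real.log 2 := by
      have := Real.log_two_gt_d9
      linarith
    have e3 : 0 ≤ Real.log v := Real.log_nonneg hv1
    have e4 : (0 : ℝ) ≤ s := by positivity
    rw [Real.norm_of_nonneg e3, Real.norm_of_nonneg (by positivity)] at g3
    nlinarith
  have hm : 2 ^ (s + C.nots) * (3 * (s + t) + 1) ≤ Q * D.card := by
    have e1 : ((2 ^ (s + C.nots) * (3 * (s + t) + 1) : ℕ) : ℝ) ≤ ((Q * D.card : ℕ) : ℝ) := by
      have e2 : 2 ^ (s + C.nots) * (3 * (s + t) + 1) ≤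
          3 * (s + 1) * (2 ^ (s + C.nots) * (t + 1)) := by
        have : 3 * (s + t) + 1 ≤ 3 * (s + 1) * (t + 1) := by nlinarith
        calc 2 ^ (s + C.nots) * (3 * (s + t) + 1) ≤ 2 ^ (s + C.nots) * (3 * (s + 1) * (t + 1)) :=
              Nat.mul_le_mul_left _ this
          _ = _ := by ring
      calc ((2 ^ (s + C.nots) * (3 * (s + t) + 1) : ℕ) : ℝ)
          ≤ ((3 * (s + 1) * (2 ^ (s + C.nots) * (t + 1)) : ℕ) : ℝ) := by exact_mod_cast e2
        _ = (3 * ((s : ℝ) + 1)) * ((2 ^ (s + C.nots) * (t + 1) : ℕ) : ℝ) := by push_cast; ring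
        _ ≤ (v : ℝ) ^ ε * (v : ℝ) ^ (2 - 2 * ε) :=
            mul_le_mul hs3 (hsr.trans hNe) (by positivity) (by positivity)
        _ = (v : ℝ) ^ (2 - ε) := by
            rw [← Real.rpow_add hv0]
            congr 1
            ring
        _ ≤ _ := hcard
    exact_mod_cast e1
  have hmain := hT (2 * (C.gates.length + 1)) fun l p hl hl2 hp =>
    bound hk2 hb0 hD hw hQb C hfree hacc hm l p hl hl2 hp
  -- the arithmetic
  have e1 : (2 : ℝ) ^ (4 * y) ≤ 2 * (C.gates.length + 1) := by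
    refine (Real.rpow_le_rpow_of_exponent_le (by norm_num) h4y).trans (hmain.trans (le_of_eq ?_))
    push_cast
    ring
  have e2 : (2 : ℝ) ^ ((N : ℝ) ^ (ε / 200)) ≤ (2 : ℝ) ^ y :=
    Real.rpow_le_rpow_of_exponent_le (by norm_num) hNy
  have e3 : (2 : ℝ) ^ (4 * y) = ((2 : ℝ) ^ y) ^ 4 := by
    rw [← Real.rpow_natCast, ← Real.rpow_mul (by norm_num)]
    congr 1
    push_cast
    ring
  have e4 : (2 : ℝ) ≤ (2 : ℝ) ^ y := by
    calc (2 : ℝ) = (2 : ℝ) ^ (1 : ℝ) := by norm_num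
      _ ≤ (2 : ℝ) ^ y := Real.rpow_le_rpow_of_exponent_le (by norm_num) (by linarith)
  refine e2.trans ?_
  rw [e3] at e1
  set z : ℝ := (2 : ℝ) ^ y with hz
  have e5 : 4 * z ≤ z ^ 4 := by
    have e6 : 4 ≤ z ^ 2 := by nlinarith
    calc 4 * z ≤ z ^ 2 * z := by nlinarith
      _ ≤ z ^ 2 * z * z := by
          have : 0 ≤ z ^ 2 * z := by positivity
          nlinarith
      _ = z ^ 4 := by ring
  nlinarith

end Pool.Agent.NNDT
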