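import Pool.Agent.NEG72.MonAppr

/-!
# The method of approximations for monotone programs, one-sided errors
-/

namespace Pool.Agent.NNDT

open Finset Pool.Agent.NegLim Pool.Agent.NEG72

section

variable {V E P : Type} [Fintype V] [DecidableEq V] [Fintype P] [DecidableEq P]
  {c : ℕ} {pos : P → E → Bool} {K : P → Finset V} {neg : (V → Fin c) → E → Bool}

open Classical in
/-- **The method of approximations for monotone programs** which reject only three quarters of the
negative tests. -/
theorem mon_bound34 {l p R T : ℕ} (hl : l * (l - 1) ≤ c) (hl2 : 2 ≤ l) (hp : 2 ≤ p)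
    (hvar : ∀ e : E, ∃ A : Finset (Finset V), (∀ X ∈ A, X.card ≤ l) ∧ A.card ≤ 1 ∧
      (∀ π, pos π e = true → AccP A (K π)) ∧ ∀ χ, AccN A χ → neg χ e = true)
    (hR : ∀ Y : Finset V, l < Y.card →
      ((univ : Finset P).filter fun π => Y ⊆ K π).card ≤ R)
    {f : (E → Bool) → Bool} (hf : MonSize f T) (hpos : ∀ π, f (pos π) = true)
    (hneg : 3 * Fintype.card (V → Fin c) ≤
      4 * ((univ : Finset (V → Fin c)).filter fun χ => f (neg χ) = false).card) :
    2 ^ p ≤ 8 * ((p * l) ^ l) ^ 2 * T ∨ Fintype.card P ≤ T * (((p * l) ^ l) ^ 2 * R) := by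
  obtain ⟨L, hL, hLT, hav⟩ := hf
  obtain ⟨BP, BN, h1, h2, h3⟩ := mon_appr hl hl2 hp hvar hR hL
  obtain ⟨A, hA1, hA2, hA3, hA4⟩ := h3 f hav
  rcases Finset.eq_empty_or_nonempty A with hA | ⟨X, hX⟩
  · right
    have h4 : (univ : Finset P) ⊆ BP := by
      intro π _
      by_contra hπ
      obtain ⟨X, hX, _⟩ := hA3 π hπ (hpos π)
      rw [hA] at hX
      simp at hX
    calc Fintype.card P = (univ : Finset P).card := rfl
      _ ≤ BP.card := Finset.card_le_card h4
      _ ≤ L.length * (((p * l) ^ l) ^ 2 * R) := h1
      _ ≤ T * (((p * l) ^ l) ^ 2 * R) := Nat.mul_le_mul_right _ hLT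
  · left
    have hc0 : 0 < c := by
      have : 2 * 1 ≤ l * (l - 1) := Nat.mul_le_mul hl2 (by omega)
      omega
    have h4 : 2 * ((univ : Finset (V → Fin c)).filter fun χ =>
        ¬ Set.InjOn χ (X : Set V)).card ≤ (univ : Finset (V → Fin c)).card := by
      apply card_not_rainbow univ (hA1 X hX) hl (Z := ∅)
      · intro u _ _ χ _ a
        exact mem_univ _
      · intro χ _
        simp
    have h5 : (univ : Finset (V → Fin c)).card ≤
        2 * ((univ : Finset (V → Fin c)).filter fun χ => Set.InjOn χ (X : Set V)).card := by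
      have := Finset.card_filter_add_card_filter_not (s := (univ : Finset (V → Fin c)))
        (fun χ => Set.InjOn χ (X : Set V))
      omega
    set I := (univ : Finset (V → Fin c)).filter fun χ => Set.InjOn χ (X : Set V) with hI
    set N := (univ : Finset (V → Fin c)).filter fun χ => f (neg χ) = false with hN
    have h6 : I ∩ N ⊆ BN := by
      intro χ hχ
      rw [mem_inter] at hχ
      by_contra hne
      have := hA4 χ hne ⟨X, hX, (mem_filter.1 hχ.1).2⟩
      rw [(mem_filter.1 hχ.2).2] at this
      exact absurd this (by decide)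
    have h7 : (univ : Finset (V → Fin c)).card = c ^ Fintype.card V := by
      rw [card_univ, Fintype.card_fun, Fintype.card_fin]
    have h7' : Fintype.card (V → Fin c) = c ^ Fintype.card V := by
      rw [← card_univ, h7]
    have h9 : (univ : Finset (V → Fin c)).card ≤ 4 * BN.card := by
      have e1 := Finset.card_union_add_card_inter I N
      have e2 : (I ∪ N).card ≤ (univ : Finset (V → Fin c)).card := Finset.card_le_univ _
      have e3 := Finset.card_le_card h6
      rw [h7'] at hneg
      rw [h7] at e2 h5 ⊢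
      omega
    have h8 : c ^ Fintype.card V * 2 ^ p ≤ (8 * ((p * l) ^ l) ^ 2 * T) * c ^ Fintype.card V := by
      calc c ^ Fintype.card V * 2 ^ p ≤ (4 * BN.card) * 2 ^ p := by
            apply Nat.mul_le_mul_right
            rw [← h7]
            exact h9
        _ = 4 * (BN.card * 2 ^ p) := by ring
        _ ≤ 4 * (L.length * (2 * ((p * l) ^ l) ^ 2 * c ^ Fintype.card V)) :=
            Nat.mul_le_mul_left _ h2
        _ ≤ 4 * (T * (2 * ((p * l) ^ l) ^ 2 * c ^ Fintype.card V)) := by gcongr
        _ = _ := by ring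
    rw [mul_comm (c ^ Fintype.card V)] at h8
    exact Nat.le_of_mul_le_mul_right h8 (by positivity)

end

end Pool.Agent.NNDT
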