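import Pool.Agent.NegLim.Transfer

/-!
The transfer theorem in the form of a family of small monotone programs, one for every witness.
-/

set_option autoImplicit false

namespace Pool.Agent.NNDT

open Finset Pool.Agent.NegLim

variable {E ι : Type} {s t : ℕ}

variable (B : ι → Set E) (hB : ∀ i j, i ≠ j → Disjoint (B i) (B j)) (c : E → Bool)
  (φ : ι → (E → Bool) → Bool) (hloc : ∀ i x x', (∀ e ∈ B i, x e = x' e) → φ i x = φ i x')

include hB hloc

/-- **Transfer theorem, conjunctive form, families.** As `transfer_and`; the function `φ i` is the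
disjunction of functions `F p`, one for every witness `p`, with small monotone programs. -/
theorem transfer_fam (htop : ∀ i, φ i (fun _ => true) = true) (C : NCirc E s t)
    (hN : C.NotsFree)
    (hC : ∀ x, (∀ e, (∀ i, e ∉ B i) → x e = c e) → (C.Acc x ↔ ∀ i, φ i x = true)) :
    ∃ A : Finset ι, A.card ≤ 2 ^ s * (2 ^ C.nots - 1) ∧
      ∀ i, i ∉ A → ∃ F : (Fin s → Bool) × (Fin t → Bool) → (E → Bool) → Bool,
        (∀ p, MonSize (F p) (C.gates.length + 1)) ∧
          ∀ y, φ i y = true ↔ ∃ p, F p y = true := by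
  classical
  set Adm : (E → Bool) → Finset ι → Prop := fun R A =>
    (∀ e, (∀ i, e ∉ B i) → R e = c e) ∧ (∀ i, i ∉ A → ∀ e ∈ B i, R e = true) ∧
      ∀ i, φ i R = true with hAdm
  have hmem : ∀ {i j e}, e ∈ B i → e ∈ B j → i = j := by
    intro i j e h1 h2
    by_contra h
    exact Set.disjoint_left.1 (hB i j h) h1 h2
  obtain ⟨R, A, ⟨hR1, hR2, hR3⟩, hA, hmax⟩ := greedy (2 ^ s * (2 ^ C.nots - 1)) (Phi C)
    (Phi_le C) Adm (fun e => if ∃ i, e ∈ B i then true else c e) (by
      refine ⟨fun e he => if_neg ?_, fun i _ e he => if_pos ⟨i, he⟩,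
        fun i => (hloc i _ _ fun e he => ?_).trans (htop i)⟩
      · rintro ⟨i, hi⟩
        exact he i hi
      · exact if_pos ⟨i, he⟩)
  refine ⟨A, hA, fun i hi => ?_⟩
  have hle : ∀ y e, upd R (B i) y e = true → R e = true := by
    intro y e h
    by_cases he : e ∈ B i
    · exact hR2 i hi e he
    · rwa [upd_notMem he] at h
  have hout : ∀ y e, (∀ j, e ∉ B j) → upd R (B i) y e = c e := by
    intro y e he
    rw [upd_notMem (he i)]
    exact hR1 e he
  have hφi : ∀ y, φ i (upd R (B i) y) = φ i y := fun y => hloc i _ _ fun e he => upd_mem he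
  have hφj : ∀ y j, j ≠ i → φ j (upd R (B i) y) = true := by
    intro y j hj
    refine (hloc j _ _ fun e he => ?_).trans (hR3 j)
    exact upd_notMem fun h => hj (hmem he h)
  have hgoodR : ∀ u w, Good (guess C R u) C.gates R u w :=
    good_guess C hN fun _ => rfl
  have hgood : ∀ y, φ i y = true → ∀ u w, Good (guess C R u) C.gates (upd R (B i) y) u w := by
    intro y hy
    apply good_guess C hN
    intro u
    refine num_eq_of_Phi C (hle y) ?_ u
    refine hmax i hi (upd R (B i) y) ⟨hout y, ?_, ?_⟩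
    · intro j hj e he
      rw [Finset.mem_insert, not_or] at hj
      rw [upd_notMem fun h => hj.1 (hmem he h)]
      exact hR2 j hj.2 e he
    · intro j
      by_cases h : j = i
      · subst h
        rw [hφi, hy]
      · exact hφj y j h
  -- the programs
  refine ⟨fun p y => chkA (guess C R p.1) C.gates (upd R (B i) y) p.1 p.2 &&
      C.out.val (upd R (B i) y) p.1 p.2 (gvals (guess C R p.1) C.gates (upd R (B i) y) p.1 p.2),
    ?_, fun y => ⟨fun hy => ?_, ?_⟩⟩
  · rintro ⟨u, w⟩
    obtain ⟨L, h1, h2, h3, h4⟩ := prog (isProj_upd R (B i)) (guess C R u) C.gates u w false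
    have h6 : Avail L fun y => C.out.val (upd R (B i) y) u w
        (gvals (guess C R u) C.gates (upd R (B i) y) u w) := by
      cases C.out with
      | inp e => exact (isProj_upd R (B i) e).mono (by simp)
      | wit φ => exact Avail.const _ _
      | gate n => exact h3 n
    exact ⟨_, Mon.and h1 h4 h6, by simpa using h2, Avail.head _ _⟩
  · have h1 : C.Acc (upd R (B i) y) := by
      rw [hC _ (hout y)]
      intro j
      by_cases h : j = i
      · subst h
        rw [hφi, hy]
      · exact hφj y j h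
    obtain ⟨u, w, h2⟩ := h1
    refine ⟨(u, w), ?_⟩
    rw [Bool.and_eq_true]
    refine ⟨chkA_of_good (hgood y hy u w), ?_⟩
    rw [(hgood y hy u w).gvals]
    exact h2
  · rintro ⟨⟨u, w⟩, h⟩
    rw [Bool.and_eq_true] at h
    obtain ⟨h1, h2⟩ := h
    rw [keyA (hle y) (hgoodR u w) h1] at h2
    have h3 : C.Acc (upd R (B i) y) := ⟨u, w, h2⟩
    rw [hC _ (hout y)] at h3
    have h4 := h3 i
    rwa [hφi] at h4

end Pool.Agent.NNDT
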