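import Pool.Agent.NNDT.Wb
import Pool.Agent.NNDT.Core
import Pool.Agent.NegLim.Final

/-!
# The bound for circuits which compute `nis`, in terms of the windows
-/

set_option autoImplicit false

namespace Pool.Agent.NNDT

open Finset Pool.Agent.NegLim Pool.Agent.NEG72

section

variable {k Q b v : ℕ} {w : ℕ × ℕ}

open Classical in
/-- the function of a window -/
noncomputable def wf (v k Q b : ℕ) (w : ℕ × ℕ) (x : Edge v → Bool) : Bool :=
  nis v k fun e => !(decide (InWin k Q b w e)) || x e

open Classical in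
lemma wf_not (x : Edge v → Bool) : wf v k Q b w (fun e => !(x e)) = !(winClq v k Q b w x) := by
  unfold wf winClq
  have h := clq_not (n := v) (k := k) (fun e => !(decide (InWin k Q b w e)) || !(x e))
  have h1 : (fun e => !(!(decide (InWin k Q b w e)) || !(x e))) =
      fun e => decide (InWin k Q b w e) && x e := by
    funext e
    simp
  rw [h1] at h
  rw [h, Bool.not_not]

variable (hw : ∀ i < k, w.1 + i * w.2 < 2 * Q) (hv : k * (2 * Q) * b ≤ v)

open Classical in
include hw hv in
lemma win_final {h : (Edge v → Bool) → Bool} {T : ℕ}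
    (hT : MonSize h T) (hle : ∀ y, h y = true → wf v k Q b w y = true)
    (hpos : 3 * Fintype.card (Fin k × Fin b → Fin (k - 1)) <
      4 * ((univ : Finset (Fin k × Fin b → Fin (k - 1))).filter
        fun χ => h (fun e => !(tneg hw hv χ e)) = true).card) (l p : ℕ)
    (hl : l * (l - 1) ≤ k - 1) (hl2 : 2 ≤ l) (hp : 2 ≤ p) :
    2 ^ p ≤ 4 * ((p * l) ^ l) ^ 2 * (2 * T) ∨
      b ^ k ≤ (2 * T) * (((p * l) ^ l) ^ 2 * b ^ (k - (l + 1))) := by
  have h1 := win_bound34 hw hv hl hl2 hp (monSize_dual hT) ?_ ?_
  · rcases h1 with h1 | h1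
    · left
      refine h1.trans (le_of_eq ?_)
      ring
    · right
      refine h1.trans (Nat.mul_le_mul_right _ ?_)
      omega
  · intro τ
    unfold NEG72.dual
    rw [Bool.not_eq_true', ← Bool.not_eq_true]
    intro h2
    have h3 := hle _ h2
    rw [wf_not, winClq_pos hw hv τ] at h3
    exact absurd h3 (by decide)
  · have h2 : ((univ : Finset (Fin k × Fin b → Fin (k - 1))).filter
        fun χ => h (fun e => !(tneg hw hv χ e)) = true) =
        ((univ : Finset (Fin k × Fin b → Fin (k - 1))).filter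
        fun χ => NEG72.dual h (tneg hw hv χ) = false) := by
      apply Finset.filter_congr
      intro χ _
      unfold NEG72.dual
      rw [Bool.not_eq_false']
    rw [h2] at hpos
    exact hpos.le

end

open Classical in
/-- **The combinatorial bound.** -/
theorem bound {v k Q b : ℕ} {D : Finset ℕ} (hk2 : 2 ≤ k) (hb0 : 0 < b)
    (hD : ThreeAPFree (D : Set ℕ))
    (hw : ∀ w ∈ Finset.range Q ×ˢ D, ∀ i < k, w.1 + i * w.2 < 2 * Q)
    (hQb : k * (2 * Q) * b ≤ v) {s t : ℕ} (C : NCirc (Edge v) s t) (hN : C.NotsFree)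
    (hacc : ∀ x, C.Acc x ↔ nis v k x = true)
    (hm : 2 ^ (s + C.nots) * (3 * (s + t) + 1) ≤ Q * D.card) (l p : ℕ)
    (hl : l * (l - 1) ≤ k - 1) (hl2 : 2 ≤ l) (hp : 2 ≤ p) :
    2 ^ p ≤ 4 * ((p * l) ^ l) ^ 2 * (2 * (C.gates.length + 1)) ∨
      b ^ k ≤ (2 * (C.gates.length + 1)) * (((p * l) ^ l) ^ 2 * b ^ (k - (l + 1))) := by
  set W := Finset.range Q ×ˢ D with hW
  have hWc : W.card = Q * D.card := by rw [hW, card_product, card_range]
  let φ : Fin W.card ≃ W := W.equivFin.symm
  have hX : 0 < Fintype.card (Fin k × Fin b → Fin (k - 1)) := by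
    rw [Fintype.card_pos_iff]
    exact ⟨fun _ => ⟨0, by omega⟩⟩
  obtain ⟨i, h, h1, h2, h3⟩ := core (X := Fin k × Fin b → Fin (k - 1)) hX
    (fun i : Fin W.card => {e : Edge v | InWin k Q b (φ i).1 e})
    (fun i j e h1 h2 => φ.injective (Subtype.ext (InWin.unique h1 h2)))
    (fun i => wf v k Q b (φ i).1)
    (by
      intro i x x' hx
      unfold wf
      congr 1
      funext e
      by_cases he : InWin k Q b (φ i).1 e
      · rw [hx e he]
      · simp [he])
    (by
      intro i
      unfold wf
      simp only [Bool.or_true]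
      exact nis_top hk2)
    (fun i χ e => !(tneg (hw _ (φ i).2) hQb χ e))
    (by
      intro i χ
      rw [wf_not, winClq_neg (hw _ (φ i).2) hQb hk2 hb0 (by omega) χ]
      rfl) C hN
    (by
      intro x hx
      rw [hacc]
      constructor
      · intro h i
        unfold wf
        rw [nis_iff] at h ⊢
        intro S hS
        obtain ⟨e, h1, h2, h3⟩ := h S hS
        exact ⟨e, h1, h2, by simp [h3]⟩
      · intro h
        by_contra hne
        rw [nis_iff] at hne
        push Not at hne
        obtain ⟨S, hS, hSx⟩ := hne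
        obtain ⟨w, hwW, hwS⟩ := one_window hD hk2 hS (by
          intro e h1 h2
          by_contra hno
          push Not at hno
          exact hSx e h1 h2 (hx e fun i => hno (φ i).1 (φ i).2))
        obtain ⟨i, hi⟩ : ∃ i, (φ i).1 = w := ⟨φ.symm ⟨w, hwW⟩, by simp⟩
        have h0 := h i
        unfold wf at h0
        obtain ⟨e, h1, h2, h3⟩ := (nis_iff.1 h0) S hS
        have h4 := hwS e h1 h2
        rw [← hi] at h4
        rw [Bool.or_eq_true, Bool.not_eq_true', decide_eq_false_iff_not] at h3
        rcases h3 with h3 | h3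
        · exact h3 h4
        · exact hSx e h1 h2 h3)
    (by rw [hWc]; exact hm)
  exact win_final (hw _ (φ i).2) hQb h1 h2 (by convert h3) l p hl hl2 hp

end Pool.Agent.NNDT
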